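import Pool.Agent.UL3.Stmts

/-!
# Row GPF of squad UL3 (MP_c7c9bf_co): the profile
-/

set_option autoImplicit false

namespace Pool.Agent.UL3.H81

open MeasureTheory Set

/-- Half of the integral of an even function with bounded support. -/
theorem half_int {φ : ℝ → ℝ} {h : ℝ} (hh : 0 ≤ h) (hev : ∀ t, φ (-t) = φ t)
    (hz : ∀ t, h < t → φ t = 0) : ∫ t in (0 : ℝ)..h, φ t = (∫ t, φ t) / 2 := by
  have h1 : (fun t => φ |t|) = φ := by
    funext t
    rcases abs_cases t with ⟨h2, -⟩ | ⟨h2, -⟩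
    · rw [h2]
    · rw [h2, hev]
  have h3 := integral_comp_abs (f := φ)
  rw [h1] at h3
  rw [h3, intervalIntegral.integral_of_le hh]
  have h4 : ∫ t in Ioi (0 : ℝ), φ t = ∫ t in Ioc (0 : ℝ) h, φ t := by
    refine setIntegral_eq_of_subset_of_forall_sdiff_eq_zero measurableSet_Ioi
      Ioc_subset_Ioi_self ?_
    intro t ht
    refine hz t ?_
    by_contra hc
    exact ht.2 ⟨ht.1, not_lt.mp hc⟩
  rw [h4]
  ring

/-- **GPF** -/
theorem gpf (htzr : TzrStmt) (hhgt : HgtStmt) (hsec : SecStmt) (hccv : CcvStmt)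
    (hfub : FubStmt) : GpfStmt := by
  intro K hK hG
  obtain ⟨hh, hbd, -⟩ := hhgt K hK
  obtain ⟨-, hs, -, ha0, hemp⟩ := hsec K hK
  have hcc := hccv K hK
  obtain ⟨-, hfu, -⟩ := hfub K hK.cpt
  obtain ⟨ht1, ht2⟩ := htzr K hK hG
  have hV : 0 < V K := by
    unfold V Measure.real
    refine ENNReal.toReal_pos ?_ hK.cpt.measure_lt_top.ne
    exact (Measure.measure_pos_of_nonempty_interior volume hK.int).ne'
  obtain ⟨h, hhd⟩ : ∃ h : ℝ, h = hgt K := ⟨_, rfl⟩
  obtain ⟨α, hα⟩ : ∃ α : ℝ → ℝ, α = al K := ⟨_, rfl⟩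
  obtain ⟨f, hf⟩ : ∃ f : ℝ, f = al K 0 / V K := ⟨_, rfl⟩
  rw [← hhd] at hh hbd hcc ht1 hemp
  rw [← hα] at ha0 ht1 ht2
  have hf0 : 0 < f := by
    rw [hf, ← hα]
    exact div_pos ha0 hV
  have hev : ∀ t, α (-t) = α t := fun t => by
    rw [hα]
    exact (hs t).2.2.2
  have hzero : ∀ t, h < |t| → α t = 0 := by
    intro t ht
    rw [hα]
    unfold al
    rw [hemp t ht]
    exact measureReal_empty
  have hpos : ∀ t, 0 ≤ α t := fun t => by
    rw [hα]
    exact measureReal_nonneg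
  have hle : ∀ t, α t ≤ α 0 := by
    intro t
    rcases le_or_gt |t| h with ht | ht
    · have h1 := abs_le.mp ht
      have hm : t ∈ Icc (-h) h := ⟨h1.1, h1.2⟩
      have hm' : -t ∈ Icc (-h) h := ⟨neg_le_neg h1.2, by linarith [h1.1]⟩
      have h2 := hcc.2 hm hm' (by norm_num : (0 : ℝ) ≤ 1 / 2) (by norm_num : (0 : ℝ) ≤ 1 / 2)
        (by norm_num)
      have e : (1 / 2 : ℝ) • t + (1 / 2 : ℝ) • -t = 0 := by
        simp only [smul_eq_mul]
        ring
      rw [e, ← hα] at h2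
      simp only [smul_eq_mul] at h2
      rw [hev t] at h2
      have h3 : Real.sqrt (α t) ≤ Real.sqrt (α 0) := by linarith
      exact (Real.sqrt_le_sqrt_iff (hpos 0)).mp h3
    · rw [hzero t ht]
      exact hpos 0
  have hHf : h * f / f = h := mul_div_cancel_right₀ h hf0.ne'
  have hGsq : ∀ x, Real.sqrt (α (x / f) / α 0) ^ 2 = α (x / f) / α 0 := fun x =>
    Real.sq_sqrt (div_nonneg (hpos _) (hpos _))
  have hint1 : ∫ t in (0 : ℝ)..h, α t = V K / 2 := by
    rw [half_int hh.le hev (fun t ht => hzero t (ht.trans_le (le_abs_self t)))]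
    have h1 := (hfu (fun _ => 1) continuous_const).2
    simp only [one_mul] at h1
    rw [hα, ← h1]
    rw [setIntegral_const, smul_eq_mul, mul_one]
    rfl
  have hint2 : ∫ t in (0 : ℝ)..h, t ^ 2 * α t = (∫ x in K, (x 2) ^ 2) / 2 := by
    rw [half_int (φ := fun t => t ^ 2 * α t) hh.le (fun t => by
      show (-t) ^ 2 * α (-t) = t ^ 2 * α t
      rw [hev, neg_sq]) (fun t ht => by
      show t ^ 2 * α t = 0
      rw [hzero t (ht.trans_le (le_abs_self t)), mul_zero])]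
    have h1 := (hfu (fun t => t ^ 2) (by fun_prop)).2
    rw [h1, hα]
  rw [← hf, ← hhd]
  refine ⟨fun x => Real.sqrt (α (x / f) / α 0), ⟨?_, ?_, ?_, ?_, ?_, ?_⟩, ?_⟩
  · -- concave
    have h1 : ConcaveOn ℝ (Icc (0 : ℝ) (h * f)) (fun x => Real.sqrt (α (x / f))) := by
      have h2 := hcc.comp_linearMap ((1 / f) • (LinearMap.id : ℝ →ₗ[ℝ] ℝ))
      rw [← hα] at h2
      have h3 : Icc (0 : ℝ) (h * f) ⊆
          ((1 / f) • (LinearMap.id : ℝ →ₗ[ℝ] ℝ)) ⁻¹' Icc (-h) h := by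
        intro x hx
        have e : ((1 / f) • (LinearMap.id : ℝ →ₗ[ℝ] ℝ)) x = x / f := by
          rw [LinearMap.smul_apply, LinearMap.id_apply, smul_eq_mul]
          ring
        rw [mem_preimage, e]
        refine ⟨?_, ?_⟩
        · have := div_nonneg hx.1 hf0.le
          linarith
        · rw [div_le_iff₀ hf0]
          exact hx.2
      have h4 := h2.subset h3 (convex_Icc _ _)
      have e2 : (fun x => Real.sqrt (α (x / f))) =
          (fun t => Real.sqrt (α t)) ∘ ((1 / f) • (LinearMap.id : ℝ →ₗ[ℝ] ℝ)) := by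
        funext x
        have e : ((1 / f) • (LinearMap.id : ℝ →ₗ[ℝ] ℝ)) x = x / f := by
          rw [LinearMap.smul_apply, LinearMap.id_apply, smul_eq_mul]
          ring
        rw [Function.comp_apply, e]
      rw [e2]
      exact h4
    have h5 := h1.smul (c := (Real.sqrt (α 0))⁻¹) (inv_nonneg.mpr (Real.sqrt_nonneg _))
    have e3 : (fun x => Real.sqrt (α (x / f) / α 0)) =
        fun x => (Real.sqrt (α 0))⁻¹ • Real.sqrt (α (x / f)) := by
      funext x
      rw [Real.sqrt_div (hpos _), smul_eq_mul]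
      ring
    rw [e3]
    exact h5
  · show Real.sqrt (α (0 / f) / α 0) = 1
    rw [zero_div, div_self ha0.ne', Real.sqrt_one]
  · intro x _
    refine ⟨Real.sqrt_nonneg _, ?_⟩
    show Real.sqrt (α (x / f) / α 0) ≤ 1
    rw [Real.sqrt_le_one, div_le_one ha0]
    exact hle _
  · have h1 : ∫ x in (0 : ℝ)..(h * f), Real.sqrt (α (x / f) / α 0) ^ 2 =
        ∫ x in (0 : ℝ)..(h * f), (fun t => α t / α 0) (x / f) :=
      intervalIntegral.integral_congr fun x _ => hGsq x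
    show ∫ x in (0 : ℝ)..(h * f), Real.sqrt (α (x / f) / α 0) ^ 2 = 1 / 2
    rw [h1, intervalIntegral.integral_comp_div (fun t => α t / α 0) hf0.ne', zero_div, hHf,
      intervalIntegral.integral_div, hint1, smul_eq_mul, hf, ← hα]
    field_simp
  · have h1 : 3 * V K / (4 * α 0) * f = 3 / 4 := by
      rw [hf, ← hα]
      field_simp
    rw [← h1]
    exact mul_le_mul_of_nonneg_right ht1 hf0.le
  · show 1343 / 2500 ≤ Real.sqrt (α (3 / 4 / f) / α 0)
    have e : (3 / 4 / f : ℝ) = 3 * V K / (4 * α 0) := by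
      rw [hf, ← hα]
      field_simp
    rw [e]
    refine Real.le_sqrt_of_sq_le ?_
    rw [le_div_iff₀ ha0]
    refine le_trans ?_ ht2
    have hs3 : 0 < Real.sqrt 3 := Real.sqrt_pos.mpr (by norm_num)
    rw [le_div_iff₀ (by positivity)]
    have h6 : Real.sqrt 3 ≤ 173206 / 100000 := by
      rw [Real.sqrt_le_left (by norm_num)]
      norm_num
    have h7 : (1343 / 2500 : ℝ) ^ 2 * (2 * Real.sqrt 3) ≤ 1 := by
      nlinarith
    calc (1343 / 2500 : ℝ) ^ 2 * α 0 * (2 * Real.sqrt 3) =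
        ((1343 / 2500 : ℝ) ^ 2 * (2 * Real.sqrt 3)) * α 0 := by ring
      _ ≤ 1 * α 0 := mul_le_mul_of_nonneg_right h7 ha0.le
      _ = α 0 := one_mul _
  · have h1 : ∫ x in (0 : ℝ)..(h * f), x ^ 2 * Real.sqrt (α (x / f) / α 0) ^ 2 =
        ∫ x in (0 : ℝ)..(h * f), (fun t => f ^ 2 / α 0 * (t ^ 2 * α t)) (x / f) := by
      refine intervalIntegral.integral_congr fun x _ => ?_
      show x ^ 2 * Real.sqrt (α (x / f) / α 0) ^ 2 =
        f ^ 2 / α 0 * ((x / f) ^ 2 * α (x / f))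
      rw [hGsq]
      field_simp
    show ∫ x in (0 : ℝ)..(h * f), x ^ 2 * Real.sqrt (α (x / f) / α 0) ^ 2 =
      f ^ 2 / (2 * V K) * ∫ x in K, (x 2) ^ 2
    rw [h1, intervalIntegral.integral_comp_div (fun t => f ^ 2 / α 0 * (t ^ 2 * α t)) hf0.ne',
      zero_div, hHf, intervalIntegral.integral_const_mul, hint2, smul_eq_mul]
    have e : f / α 0 = 1 / V K := by
      rw [hf, ← hα]
      field_simp
    calc f * (f ^ 2 / α 0 * ((∫ x in K, (x 2) ^ 2) / 2)) =
        (f / α 0) * f ^ 2 * (∫ x in K, (x 2) ^ 2) / 2 := by ring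
      _ = f ^ 2 / (2 * V K) * ∫ x in K, (x 2) ^ 2 := by
        rw [e]
        field_simp

end Pool.Agent.UL3.H81
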