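import Pool.Agent.UL3.Stmts

/-!
# Row HCN of squad UL3 (MP_c7c9bf_co): the cone
-/

set_option autoImplicit false

namespace Pool.Agent.UL3.H81

open MeasureTheory Set

/-- **HCN** -/
theorem hcn : HcnStmt := by
  intro H G hH hG h0 hGH hint
  have h1 : ∫ x in (0 : ℝ)..H, (1 - x / H) ^ 2 = H / 3 := by
    have hd : ∀ x ∈ uIcc (0 : ℝ) H,
        HasDerivAt (fun x => -(H / 3) * (1 - x / H) ^ 3) ((1 - x / H) ^ 2) x := by
      intro x _
      have h2 : HasDerivAt (fun x => 1 - x / H) (-(1 / H)) x := by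
        have := ((hasDerivAt_id x).div_const H).const_sub 1
        exact this
      have h3 := (h2.pow 3).const_mul (-(H / 3))
      have e : -(H / 3) * (((3 : ℕ) : ℝ) * (1 - x / H) ^ (3 - 1) * -(1 / H)) =
          (1 - x / H) ^ 2 := by
        push_cast
        field_simp
      rw [e] at h3
      exact h3
    rw [intervalIntegral.integral_eq_sub_of_hasDerivAt hd
      ((by fun_prop : Continuous fun x : ℝ => (1 - x / H) ^ 2).intervalIntegrable _ _)]
    rw [div_self hH.ne']
    norm_num
  rw [← h1]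
  refine intervalIntegral.integral_mono_on hH.le
    ((by fun_prop : Continuous fun x : ℝ => (1 - x / H) ^ 2).intervalIntegrable _ _) hint ?_
  intro x hx
  have hx1 : 0 ≤ 1 - x / H := by
    rw [sub_nonneg, div_le_one hH]
    exact hx.2
  have h2 : 1 - x / H ≤ G x := by
    have h3 := hG.2 (left_mem_Icc.mpr hH.le) (right_mem_Icc.mpr hH.le) hx1
      (div_nonneg hx.1 hH.le) (by ring)
    have e : (1 - x / H) • (0 : ℝ) + (x / H) • H = x := by
      simp only [smul_eq_mul, mul_zero, zero_add]
      exact div_mul_cancel₀ x hH.ne'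
    rw [e, h0] at h3
    simp only [smul_eq_mul, mul_one] at h3
    have h4 : 0 ≤ x / H * G H := mul_nonneg (div_nonneg hx.1 hH.le) hGH
    linarith
  exact pow_le_pow_left₀ hx1 h2 2

end Pool.Agent.UL3.H81
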