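import Pool.Agent.UL3.Stmts

/-!
# Row SLB of squad UL3 (MP_c7c9bf_co): slabs of the unit ball
-/

set_option autoImplicit false

namespace Pool.Agent.UL3.H81

open MeasureTheory Set

/-- the plane and the axis -/
noncomputable def spl (x : E3) : ℝ × EuclideanSpace ℝ (Fin 2) :=
  Prod.map id (WithLp.toLp 2) (MeasurableEquiv.piFinSuccAbove (fun _ : Fin 3 => ℝ) 2 (WithLp.ofLp x))

theorem spl_mp : MeasurePreserving spl := by
  have h1 := PiLp.volume_preserving_ofLp (Fin 3)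
  have h2 := volume_preserving_piFinSuccAbove (fun _ : Fin 3 => ℝ) 2
  have h3 : MeasurePreserving (Prod.map (id : ℝ → ℝ) (WithLp.toLp 2 : (Fin 2 → ℝ) → _)) :=
    (MeasurePreserving.id volume).prod (PiLp.volume_preserving_toLp (Fin 2))
  exact h3.comp (h2.comp h1)

theorem cyl_vol (κ : ℝ) (hκ : 0 ≤ κ) :
    volume {y : E3 | (y 0) ^ 2 + (y 1) ^ 2 ≤ 1 ∧ |y 2| ≤ κ} =
      ENNReal.ofReal (2 * κ * Real.pi) := by
  have e : {y : E3 | (y 0) ^ 2 + (y 1) ^ 2 ≤ 1 ∧ |y 2| ≤ κ} =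
      spl ⁻¹' (Icc (-κ) κ ×ˢ Metric.closedBall (0 : EuclideanSpace ℝ (Fin 2)) 1) := by
    ext y
    have h1 : (spl y).1 = y 2 := rfl
    have h2 : (spl y).2 0 = y 0 := rfl
    have h3 : (spl y).2 1 = y 1 := rfl
    rw [mem_preimage, mem_prod, h1, mem_Icc, ← abs_le, mem_closedBall_zero_iff, mem_ofPred_eq,
      and_comm]
    refine and_congr Iff.rfl ?_
    rw [← sq_le_one_iff₀ (norm_nonneg _), EuclideanSpace.real_norm_sq_eq, Fin.sum_univ_two, h2, h3]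
  rw [e, spl_mp.measure_preimage
    ((measurableSet_Icc.prod Metric.isClosed_closedBall.measurableSet).nullMeasurableSet),
    Measure.volume_eq_prod, Measure.prod_prod, Real.volume_Icc,
    EuclideanSpace.volume_closedBall_fin_two, ENNReal.ofReal_one, one_pow, one_mul,
    ← ENNReal.ofReal_mul (by linarith)]
  congr 1
  ring

/-- **SLB** -/
theorem slb (hrot : RotStmt) : SlbStmt := by
  intro x ε hx hε
  have hx0 : 0 < ‖x‖ := norm_pos_iff.mpr hx
  obtain ⟨R, hR⟩ := hrot ((‖x‖)⁻¹ • x) (by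
    rw [norm_smul, norm_inv, norm_norm, inv_mul_cancel₀ hx0.ne'])
  have hsub : {u | u ∈ Metric.closedBall (0 : E3) 1 ∧ |inner ℝ x u| ≤ ε} ⊆
      R ⁻¹' {y : E3 | (y 0) ^ 2 + (y 1) ^ 2 ≤ 1 ∧ |y 2| ≤ ε / ‖x‖} := by
    rintro u ⟨hu, hxu⟩
    rw [mem_closedBall_zero_iff] at hu
    refine ⟨?_, ?_⟩
    · have h1 : ‖R u‖ ≤ 1 := by
        rw [R.norm_map]
        exact hu
      have h2 : ‖R u‖ ^ 2 ≤ 1 := by
        rw [sq_le_one_iff₀ (norm_nonneg _)]
        exact h1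
      rw [EuclideanSpace.real_norm_sq_eq, Fin.sum_univ_three] at h2
      have h3 : 0 ≤ ((R u) 2) ^ 2 := sq_nonneg _
      linarith
    · rw [hR, real_inner_smul_right, real_inner_comm, abs_mul, abs_inv, abs_norm,
        inv_mul_eq_div]
      exact div_le_div_of_nonneg_right hxu hx0.le
  have hκ : 0 ≤ ε / ‖x‖ := div_nonneg hε.le hx0.le
  have hvol : volume (R ⁻¹' {y : E3 | (y 0) ^ 2 + (y 1) ^ 2 ≤ 1 ∧ |y 2| ≤ ε / ‖x‖}) =
      ENNReal.ofReal (2 * (ε / ‖x‖) * Real.pi) := by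
    have hc1 : IsClosed {y : E3 | (y 0) ^ 2 + (y 1) ^ 2 ≤ 1} :=
      isClosed_le (by fun_prop) continuous_const
    have hc2 : IsClosed {y : E3 | |y 2| ≤ ε / ‖x‖} :=
      isClosed_le (by fun_prop) continuous_const
    have he : {y : E3 | (y 0) ^ 2 + (y 1) ^ 2 ≤ 1 ∧ |y 2| ≤ ε / ‖x‖} =
        {y : E3 | (y 0) ^ 2 + (y 1) ^ 2 ≤ 1} ∩ {y : E3 | |y 2| ≤ ε / ‖x‖} := by
      ext y
      exact Iff.rfl
    have hc : IsClosed {y : E3 | (y 0) ^ 2 + (y 1) ^ 2 ≤ 1 ∧ |y 2| ≤ ε / ‖x‖} := by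
      rw [he]
      exact hc1.inter hc2
    rw [R.measurePreserving.measure_preimage hc.measurableSet.nullMeasurableSet]
    exact cyl_vol _ hκ
  have hle := (measure_mono hsub).trans_eq hvol
  unfold V Measure.real
  have h5 := ENNReal.toReal_mono ENNReal.ofReal_ne_top hle
  rw [ENNReal.toReal_ofReal (mul_nonneg (mul_nonneg (by norm_num) hκ) Real.pi_pos.le)] at h5
  refine h5.trans (le_of_eq ?_)
  ring

end Pool.Agent.UL3.H81
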